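import Pool.Agent.helper19.QP.SpecS
import Pool.Agent.helper31.IG.F1
import Pool.Agent.helper7.IG.Basic

/-!
# QP (MP_ebc808_nt), row KXP: the expansion of the kernel
-/

set_option autoImplicit false

open Finset

noncomputable section

namespace Pool.Agent.QP

open Pool.Agent.helper7.IG (kk LL sig DDk MM im2 ps Vx Nb Frame sig_coeff sig_coeff_mul)
open Pool.Agent.LQ (FF DD)
open Pool.Agent.EP (KK ww vvx WW JG ac pp IsT)

/-- The inclusion of coefficients. -/
def KXP_m (f : KK) : LL := f.map (algebraMap (ZMod 2) kk)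

theorem KXP_m_coeff (f : KK) (n : ℤ) : (KXP_m f).coeff n = algebraMap (ZMod 2) kk (f.coeff n) := rfl

theorem KXP_m_one : KXP_m 1 = 1 := by
  ext n
  rw [KXP_m_coeff, HahnSeries.coeff_one, HahnSeries.coeff_one]
  split_ifs
  · rw [map_one]
  · rw [map_zero]

theorem KXP_m_mul (f g : KK) : KXP_m (f * g) = KXP_m f * KXP_m g := by
  have hs : ∀ h : KK, (KXP_m h).support = h.support := by
    intro h
    ext n
    simp only [HahnSeries.mem_support, KXP_m_coeff, ne_eq, map_eq_zero]
  ext n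
  rw [KXP_m_coeff, HahnSeries.coeff_mul, HahnSeries.coeff_mul, map_sum]
  refine Finset.sum_congr ?_ ?_
  · ext ⟨i, j⟩
    simp only [Finset.mem_antidiagonal, hs]
  · rintro ⟨i, j⟩ _
    simp only [KXP_m_coeff, map_mul]

theorem KXP_m_pow (f : KK) (i : ℕ) : KXP_m (f ^ i) = KXP_m f ^ i := by
  induction i with
  | zero => rw [pow_zero, pow_zero, KXP_m_one]
  | succ i ih => rw [pow_succ, pow_succ, KXP_m_mul, ih]

theorem KXP_im2 (F : FF) : im2 F = KXP_m (HahnSeries.ofPowerSeries ℤ (ZMod 2) F) := by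
  ext n
  rw [KXP_m_coeff]
  rcases le_or_gt 0 n with h | h
  · obtain ⟨m, rfl⟩ := Int.eq_ofNat_of_zero_le h
    rw [Pool.Agent.helper7.IG.im2_coeff_nat, HahnSeries.ofPowerSeries_apply_coeff]
  · rw [Pool.Agent.helper7.IG.im2_coeff_neg _ _ h, HahnSeries.ofPowerSeries_apply,
      HahnSeries.embDomain_of_notMem_range, map_zero]
    rintro ⟨m, hm⟩
    simp at hm
    omega

theorem KXP_DDk : im2 DD = DDk := by
  rw [Pool.Agent.LQ.DD_def]
  exact Pool.Agent.helper7.IG.F1_a

theorem KXP_DDk_ne : DDk ≠ 0 := Pool.Agent.helper7.IG.th_ne_zero 1 1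

theorem KXP_inv (hJJ0 : JJ0_stmt) : KXP_m jj = DDk⁻¹ := by
  have h := hJJ0.2.2.2.2.2
  have h2 : KXP_m jj * DDk = 1 := by
    rw [← KXP_DDk, KXP_im2, ← KXP_m_mul, h, KXP_m_one]
  exact eq_inv_of_mul_eq_one_left h2

/-- Coefficients of the powers of `DD` below the diagonal. -/
theorem KXP_low (i n : ℕ) (h : n < i) : PowerSeries.coeff n (DD ^ i) = 0 := by
  have h1 : DD ^ i = PowerSeries.X ^ i * (Pool.Agent.helper81.EE ^ 24) ^ i := by
    rw [Pool.Agent.LQ.DD_def, mul_pow]
  rw [h1, PowerSeries.coeff_X_pow_mul', if_neg (by omega)]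

/-- Coefficients of `sig α ζ` of powers of `D`. -/
theorem KXP_pow_coeff (β : ℕ) (hβ : 0 < β) (ξ : kkˣ) (i : ℕ) (n : ℤ) :
    ((sig β ξ DDk) ^ i).coeff n = if (β : ℤ) ∣ n ∧ 0 ≤ n / β then
      ((ξ ^ (n / (β : ℤ)) : kkˣ) : kk) * algebraMap (ZMod 2) kk (PowerSeries.coeff (n / β).toNat (DD ^ i)) else 0 := by
  rw [← map_pow, ← KXP_DDk, ← map_pow, sig_coeff (by omega)]
  by_cases h : (β : ℤ) ∣ n
  · rw [if_pos h]
    by_cases h0 : 0 ≤ n / β
    · rw [if_pos ⟨h, h0⟩]
      congr 1
      obtain ⟨m, hm⟩ := Int.eq_ofNat_of_zero_le h0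
      rw [hm, Pool.Agent.helper7.IG.im2_coeff_nat]
      rfl
    · rw [if_neg (fun h2 => h0 h2.2), Pool.Agent.helper7.IG.im2_coeff_neg _ _ (by omega), mul_zero]
  · rw [if_neg h, if_neg (fun h2 => h h2.1)]

/-- Coefficients of `sig α ζ` of powers of `1/D`. -/
theorem KXP_inv_coeff (hJJ0 : JJ0_stmt) (α : ℕ) (hα : 0 < α) (ζ : kkˣ) (i : ℕ) (n : ℤ) :
    (((sig α ζ DDk)⁻¹) ^ i).coeff n = if (α : ℤ) ∣ n then
      ((ζ ^ (n / (α : ℤ)) : kkˣ) : kk) * algebraMap (ZMod 2) kk ((jj ^ i).coeff (n / α)) else 0 := by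
  rw [← map_inv₀, ← KXP_inv hJJ0, ← map_pow, ← KXP_m_pow, sig_coeff (by omega)]
  rfl

/-- A series with given lowest term. -/
theorem KXP_order (F : LL) (d : ℤ) (h1 : ∀ n < d, F.coeff n = 0) (h2 : F.coeff d ≠ 0) : F.order = d := by
  have hF : F ≠ 0 := by
    rintro rfl
    exact h2 HahnSeries.coeff_zero
  apply le_antisymm
  · exact HahnSeries.order_le_of_coeff_ne_zero h2
  · by_contra h
    push Not at h
    exact hF (HahnSeries.coeff_order_eq_zero.mp (h1 _ h))

theorem KXP_sig_ord (β : ℕ) (hβ : 0 < β) (ξ : kkˣ) : (∀ n < (β : ℤ), (sig β ξ DDk).coeff n = 0) ∧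
    (sig β ξ DDk).coeff (β : ℤ) ≠ 0 := by
  have hb : (0 : ℤ) < β := by exact_mod_cast hβ
  constructor
  · intro n hn
    have h := KXP_pow_coeff β hβ ξ 1 n
    rw [pow_one, pow_one] at h
    rw [h]
    split_ifs with h2
    · have h3 : n / (β : ℤ) < 1 := Int.ediv_lt_of_lt_mul hb (by linarith)
      have h4 : n / (β : ℤ) = 0 := by omega
      have h5 : PowerSeries.coeff (n / (β : ℤ)).toNat DD = 0 := by
        rw [h4]
        have := KXP_low 1 0 (by omega)
        rwa [pow_one] at this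
      rw [h5, map_zero, mul_zero]
    · rfl
  · have h := sig_coeff_mul (e := β) (by omega) ξ DDk 1
    rw [mul_one] at h
    rw [h, zpow_one, Pool.Agent.helper7.IG.DDk_coeff, if_pos ⟨1, by norm_num, odd_one⟩, mul_one]
    exact ξ.ne_zero

/-- The product formula for the coefficients. -/
theorem KXP_conv (F G : LL) (β K : ℕ) (hβ : 0 < β) (l : ℤ)
    (hF : ∀ n : ℤ, F.coeff n ≠ 0 → ∃ A : ℕ, n = β * A)
    (hG : ∀ A : ℕ, K < A → G.coeff (l - β * A) = 0) :
    (F * G).coeff l = ∑ A ∈ range (K + 1), F.coeff (β * (A : ℤ)) * G.coeff (l - β * A) := by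
  classical
  have hb : (0 : ℤ) < β := by exact_mod_cast hβ
  have hinj : Set.InjOn (fun A : ℕ => (((β : ℤ) * (A : ℤ), l - (β : ℤ) * (A : ℤ)) : ℤ × ℤ))
      (range (K + 1) : Set ℕ) := by
    intro A _ A' _ h
    simp only [Prod.mk.injEq] at h
    have := mul_left_cancel₀ hb.ne' h.1
    exact_mod_cast this
  have h1 : ∑ A ∈ range (K + 1), F.coeff (β * (A : ℤ)) * G.coeff (l - β * A) =
      ∑ x ∈ (range (K + 1)).image (fun A : ℕ => (((β : ℤ) * (A : ℤ), l - (β : ℤ) * (A : ℤ)) : ℤ × ℤ)),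
        F.coeff x.1 * G.coeff x.2 := by
    rw [Finset.sum_image hinj]
  rw [h1, HahnSeries.coeff_mul]
  refine Finset.sum_congr_of_eq_on_inter ?_ ?_ (fun _ _ _ => rfl)
  · rintro ⟨i, j⟩ hx hn
    simp only [Finset.mem_antidiagonal, HahnSeries.mem_support] at hx
    obtain ⟨A, hA⟩ := hF i hx.1
    exfalso
    have hj : j = l - β * A := by
      have := hx.2.2
      omega
    by_cases hAK : A < K + 1
    · apply hn
      rw [Finset.mem_image]
      exact ⟨A, Finset.mem_range.mpr hAK, by rw [hA, hj]⟩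
    · apply hx.2.1
      rw [hj]
      exact hG A (by omega)
  · rintro ⟨i, j⟩ hx hn
    simp only [Finset.mem_antidiagonal, HahnSeries.mem_support] at hn
    rw [Finset.mem_image] at hx
    obtain ⟨A, _, hA⟩ := hx
    simp only [Prod.mk.injEq] at hA
    by_contra h
    apply hn
    rw [mul_eq_zero, not_or] at h
    exact ⟨h.1, h.2, by rw [← hA.1, ← hA.2]; ring⟩

theorem KXP_main (hJJ0 : JJ0_stmt) (hKER : KER_stmt) (α β : ℕ) (ζ ξ : kkˣ) (l : ℤ)
    (hα : 0 < α) (hαβ : α < β) :
    (kap (sig α ζ DDk) (sig β ξ DDk)).coeff l =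
      ∑ A ∈ Icc 1 l.toNat, if (α : ℤ) ∣ l - β * A then
        ((ξ ^ (A : ℤ) : kkˣ) : kk) * (((ζ ^ ((l - β * A) / (α : ℤ)) : kkˣ) : kk) *
          algebraMap (ZMod 2) kk (JG jc A ((l - β * A) / (α : ℤ)))) else 0 := by
  classical
  have hβ : 0 < β := by omega
  have ha' : (0 : ℤ) < α := by exact_mod_cast hα
  have hb' : (0 : ℤ) < β := by exact_mod_cast hβ
  have hab' : (α : ℤ) < β := by exact_mod_cast hαβ
  set a := sig α ζ DDk with ha
  set b := sig β ξ DDk with hb
  obtain ⟨ha1, ha2⟩ := KXP_sig_ord α hα ζ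
  obtain ⟨hb1, hb2⟩ := KXP_sig_ord β hβ ξ
  rw [← ha] at ha1 ha2
  rw [← hb] at hb1 hb2
  have ha0 : a ≠ 0 := by
    rintro h
    rw [h, HahnSeries.coeff_zero] at ha2
    exact ha2 rfl
  have hb0 : b ≠ 0 := by
    rintro h
    rw [h, HahnSeries.coeff_zero] at hb2
    exact hb2 rfl
  have hab : (a + b).order = α := by
    apply KXP_order
    · intro n hn
      rw [HahnSeries.coeff_add, ha1 n hn, hb1 n (by omega), add_zero]
    · rw [HahnSeries.coeff_add, hb1 _ hab', add_zero]
      exact ha2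
  have hab0 : a + b ≠ 0 := by
    intro h
    have h1 := congrArg (fun F : LL => F.coeff (α : ℤ)) h
    simp only [HahnSeries.coeff_add, HahnSeries.coeff_zero] at h1
    rw [hb1 _ hab', add_zero] at h1
    exact ha2 h1
  set w := kap a b with hw
  have hwab : w * (a + b) = b := by
    rw [hw]
    unfold kap
    exact div_mul_cancel₀ b hab0
  have hw0 : w ≠ 0 := by
    intro h
    rw [h, zero_mul] at hwab
    exact hb0 hwab.symm
  have hword : w.order = (β : ℤ) - α := by
    have h1 := HahnSeries.order_mul hw0 hab0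
    rw [hwab, hab, KXP_order b β hb1 hb2] at h1
    omega
  set u := b * a⁻¹ with hu
  have hrec : w = u + u * w := by
    have h1 : w * a + w * b = b := by rw [← mul_add, hwab]
    have h2 : w + w * u = u := by
      rw [hu]
      have h3 : w = w * a * a⁻¹ := by rw [mul_assoc, mul_inv_cancel₀ ha0, mul_one]
      calc w + w * (b * a⁻¹) = (w * a + w * b) * a⁻¹ := by
            rw [add_mul, mul_assoc w a, mul_inv_cancel₀ ha0, mul_one, mul_assoc]
        _ = b * a⁻¹ := by rw [h1]
    calc w = w + w * u + w * u := by rw [add_assoc, CharTwo.add_self_eq_zero, add_zero]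
      _ = u + w * u := by rw [h2]
      _ = u + u * w := by rw [mul_comm w u]
  have hu0 : u ≠ 0 := mul_ne_zero hb0 (inv_ne_zero ha0)
  have huord : u.order = (β : ℤ) - α := by
    have h1 : u * a = b := by rw [hu, mul_assoc, inv_mul_cancel₀ ha0, mul_one]
    have h2 := HahnSeries.order_mul hu0 ha0
    rw [h1, KXP_order a α ha1 ha2, KXP_order b β hb1 hb2] at h2
    omega
  have hexp : ∀ I : ℕ, w = ∑ i ∈ range I, u ^ (i + 1) + u ^ I * w := by
    intro I
    induction I with
    | zero => simp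
    | succ I ih =>
      rw [Finset.sum_range_succ, add_assoc]
      have h1 : u ^ (I + 1) + u ^ (I + 1) * w = u ^ I * w := by
        calc u ^ (I + 1) + u ^ (I + 1) * w = u ^ I * (u + u * w) := by ring
          _ = u ^ I * w := by rw [← hrec]
      rw [h1]
      exact ih
  set I := l.toNat with hI
  have hrest : (u ^ I * w).coeff l = 0 := by
    apply HahnSeries.coeff_eq_zero_of_lt_order
    rw [HahnSeries.order_mul (pow_ne_zero _ hu0) hw0, HahnSeries.order_pow, hword, huord, nsmul_eq_mul]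
    have h1 : (I : ℤ) * 1 ≤ (I : ℤ) * ((β : ℤ) - α) :=
      mul_le_mul_of_nonneg_left (by omega) (by positivity)
    have h2 : l ≤ (I : ℤ) := Int.self_le_toNat l
    omega
  rw [hexp I, HahnSeries.coeff_add, hrest, add_zero, HahnSeries.coeff_sum]
  -- bound for the summation
  set K := (l + α * I).toNat + I with hK
  have hKl : l + (α : ℤ) * I ≤ K := by
    have := Int.self_le_toNat (l + α * I)
    omega
  have hterm : ∀ i ∈ range I, (u ^ (i + 1)).coeff l = ∑ A ∈ range (K + 1),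
      if (α : ℤ) ∣ l - β * A then ((ξ ^ (A : ℤ) : kkˣ) : kk) * (((ζ ^ ((l - β * A) / (α : ℤ)) : kkˣ) : kk) *
        (algebraMap (ZMod 2) kk (PowerSeries.coeff A (DD ^ (i + 1)) * (jj ^ (i + 1)).coeff ((l - β * A) / (α : ℤ))))) else 0 := by
    intro i hi
    rw [Finset.mem_range] at hi
    rw [hu, mul_pow, KXP_conv (b ^ (i + 1)) (a⁻¹ ^ (i + 1)) β K hβ l]
    · refine Finset.sum_congr rfl fun A _ => ?_
      rw [hb, ha, KXP_pow_coeff β hβ ξ (i + 1), KXP_inv_coeff hJJ0 α hα ζ (i + 1)]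
      rw [Int.mul_ediv_cancel_left _ hb'.ne', if_pos ⟨dvd_mul_right _ _, Int.natCast_nonneg A⟩, Int.toNat_natCast]
      split_ifs with h
      · rw [map_mul]
        ring
      · rw [mul_zero]
    · intro n hn
      rw [hb, KXP_pow_coeff β hβ ξ (i + 1)] at hn
      by_cases h : (β : ℤ) ∣ n ∧ 0 ≤ n / β
      · obtain ⟨A, hA⟩ := Int.eq_ofNat_of_zero_le h.2
        refine ⟨A, ?_⟩
        rw [← Int.mul_ediv_cancel' h.1, hA]
      · rw [if_neg h] at hn
        exact absurd rfl hn
    · intro A hA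
      rw [ha, KXP_inv_coeff hJJ0 α hα ζ (i + 1)]
      split_ifs with h
      · rw [hJJ0.1 (i + 1) _ ?_, map_zero, mul_zero]
        obtain ⟨M, hM⟩ := h
        rw [hM, Int.mul_ediv_cancel_left _ ha'.ne']
        by_contra hc
        push Not at hc
        have h1 : -((α : ℤ) * I) ≤ α * M := by
          have h2 : -(I : ℤ) ≤ M := by
            push_cast at hc
            omega
          have h3 := mul_le_mul_of_nonneg_left h2 ha'.le
          linarith
        have h4 : (A : ℤ) ≤ β * A := by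
          have : (1 : ℤ) * A ≤ β * A := mul_le_mul_of_nonneg_right (by omega) (by positivity)
          linarith
        have h5 : (K : ℤ) < A := by exact_mod_cast hA
        linarith
      · rfl
  rw [Finset.sum_congr rfl hterm, Finset.sum_comm]
  have hsub : Icc 1 I ⊆ range (K + 1) := by
    intro A hA
    rw [Finset.mem_Icc] at hA
    rw [Finset.mem_range]
    omega
  symm
  rw [← Finset.sum_subset hsub]
  · refine Finset.sum_congr rfl fun A hA => ?_
    rw [Finset.mem_Icc] at hA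
    split_ifs with h
    · rw [← Finset.mul_sum, ← Finset.mul_sum, ← map_sum, hKER A _ (by omega)]
      have h1 : ∑ i ∈ Icc 1 A, PowerSeries.coeff A (DD ^ i) * (jj ^ i).coeff ((l - β * A) / (α : ℤ)) =
          ∑ i ∈ range I, PowerSeries.coeff A (DD ^ (i + 1)) * (jj ^ (i + 1)).coeff ((l - β * A) / (α : ℤ)) := by
        have h2 : ∑ i ∈ range I, PowerSeries.coeff A (DD ^ (i + 1)) * (jj ^ (i + 1)).coeff ((l - β * A) / (α : ℤ)) =
            ∑ i ∈ Icc 1 I, PowerSeries.coeff A (DD ^ i) * (jj ^ i).coeff ((l - β * A) / (α : ℤ)) := by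
          rw [Finset.range_eq_Ico, Finset.sum_Ico_add' (fun i => PowerSeries.coeff A (DD ^ i) *
            (jj ^ i).coeff ((l - β * A) / (α : ℤ))) 0 I 1]
          rfl
        rw [h2]
        apply Finset.sum_subset
        · intro i hi
          rw [Finset.mem_Icc] at hi ⊢
          omega
        · intro i hi hn
          rw [Finset.mem_Icc] at hi hn
          rw [KXP_low i A (by omega), zero_mul]
      rw [h1]
    · exact (Finset.sum_const_zero).symm
  · intro A hA hn
    apply Finset.sum_eq_zero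
    intro i hi
    rw [Finset.mem_range] at hi hA
    rw [Finset.mem_Icc] at hn
    split_ifs with h
    · have h0 : PowerSeries.coeff A (DD ^ (i + 1)) * (jj ^ (i + 1)).coeff ((l - β * A) / (α : ℤ)) = 0 := by
        by_cases hAi : A < i + 1
        · rw [KXP_low _ _ hAi, zero_mul]
        · rw [hJJ0.1 (i + 1) _ ?_, mul_zero]
          obtain ⟨M, hM⟩ := h
          rw [hM, Int.mul_ediv_cancel_left _ ha'.ne']
          by_contra hc
          push Not at hc
          have h1 : -(A : ℤ) ≤ M := by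
            push_cast at hc
            omega
          have h2 := mul_le_mul_of_nonneg_left h1 ha'.le
          have h3 : (1 : ℤ) * A ≤ ((β : ℤ) - α) * A := mul_le_mul_of_nonneg_right (by omega) (by positivity)
          have h4 : (A : ℤ) ≤ l := by nlinarith
          have h5 : A ≤ I := by omega
          exact hn ⟨by omega, h5⟩
      rw [h0, map_zero, mul_zero, mul_zero]
    · rfl

theorem KXP (hJJ0 : JJ0_stmt) (_hJGN : JGN_stmt) (hKER : KER_stmt) : KXP_stmt := by
  intro α β ζ l hα hβ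
  constructor
  · intro h
    rw [KXP_main hJJ0 hKER α β ζ 1 l hα h]
    refine Finset.sum_congr rfl fun A _ => ?_
    rw [one_zpow, Units.val_one, one_mul]
  · intro h
    have ha0 : sig α ζ DDk + sig β 1 DDk ≠ 0 := by
      intro h0
      obtain ⟨ha1, ha2⟩ := KXP_sig_ord α hα ζ
      obtain ⟨hb1, hb2⟩ := KXP_sig_ord β hβ 1
      have h1 := congrArg (fun F : LL => F.coeff (β : ℤ)) h0
      simp only [HahnSeries.coeff_add, HahnSeries.coeff_zero] at h1
      rw [ha1 _ (by exact_mod_cast h), zero_add] at h1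
      exact hb2 h1
    have h1 : kap (sig α ζ DDk) (sig β 1 DDk) = 1 + kap (sig β 1 DDk) (sig α ζ DDk) := by
      unfold kap
      rw [add_comm (sig β 1 DDk) (sig α ζ DDk)]
      rw [← div_self ha0, add_div]
      have h2 : sig α ζ DDk / (sig α ζ DDk + sig β 1 DDk) + sig β 1 DDk / (sig α ζ DDk + sig β 1 DDk) +
          sig α ζ DDk / (sig α ζ DDk + sig β 1 DDk) = sig β 1 DDk / (sig α ζ DDk + sig β 1 DDk) +
          (sig α ζ DDk / (sig α ζ DDk + sig β 1 DDk) + sig α ζ DDk / (sig α ζ DDk + sig β 1 DDk)) := by ring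
      rw [h2, CharTwo.add_self_eq_zero, add_zero]
    rw [h1, HahnSeries.coeff_add, HahnSeries.coeff_one, KXP_main hJJ0 hKER β α 1 ζ l hβ h]
    have h3 : ∀ A ∈ Icc 1 l.toNat, (if (β : ℤ) ∣ l - α * A then
        ((ζ ^ (A : ℤ) : kkˣ) : kk) * ((((1 : kkˣ) ^ ((l - α * A) / (β : ℤ)) : kkˣ) : kk) *
          algebraMap (ZMod 2) kk (JG jc A ((l - α * A) / (β : ℤ)))) else 0) = (if (β : ℤ) ∣ l - α * A then
        ((ζ ^ (A : ℤ) : kkˣ) : kk) * algebraMap (ZMod 2) kk (JG jc A ((l - α * A) / (β : ℤ))) else 0) := by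
      intro A _
      rw [one_zpow, Units.val_one, one_mul]
    rw [Finset.sum_congr rfl h3]
    by_cases hl : l = 0
    · rw [if_pos hl, if_pos hl]
    · rw [if_neg hl, if_neg hl]

end Pool.Agent.QP
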