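import Pool.Agent.helper19.QP.SpecS
import Pool.Agent.helper59.OD.V1
import Pool.Agent.helper59.EP.WM
import Pool.Agent.helper33.EP.FRO

/-!
# QP (MP_ebc808_nt), row FCO: the coefficients of `f` at the squares
-/

set_option autoImplicit false

open Finset

noncomputable section

namespace Pool.Agent.QP

open Pool.Agent.helper7.IG (kk LL sig DDk MM im2 ps Vx Nb Frame)
open Pool.Agent.LQ (FF DD)
open Pool.Agent.EP (KK ww vvx WW JG ac pp IsT)

theorem FCO_wv : ww * vvx = 1 := Pool.Agent.EP.WM.2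

/-- Multiplication by the theta series `vvx`. -/
theorem FCO_conv (G : KK) (l : ℤ) (U : ℕ) (hU : ∀ u : ℕ, U < u → G.coeff (l - (u : ℤ) ^ 2) = 0) :
    (vvx * G).coeff l = ∑ u ∈ (range (U + 1)).filter (fun u => u.Coprime 6), G.coeff (l - (u : ℤ) ^ 2) := by
  classical
  have hinj : Set.InjOn (fun u : ℕ => ((((u : ℤ) ^ 2), l - (u : ℤ) ^ 2) : ℤ × ℤ))
      ((range (U + 1)).filter (fun u => u.Coprime 6) : Set ℕ) := by
    intro u _ u' _ h
    simp only [Prod.mk.injEq] at h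
    have h1 : u ^ 2 = u' ^ 2 := by exact_mod_cast h.1
    exact Nat.pow_left_injective (by norm_num) h1
  have h1 : ∑ u ∈ (range (U + 1)).filter (fun u => u.Coprime 6), G.coeff (l - (u : ℤ) ^ 2) =
      ∑ x ∈ ((range (U + 1)).filter (fun u => u.Coprime 6)).image
        (fun u : ℕ => ((((u : ℤ) ^ 2), l - (u : ℤ) ^ 2) : ℤ × ℤ)), vvx.coeff x.1 * G.coeff x.2 := by
    rw [Finset.sum_image hinj]
    refine Finset.sum_congr rfl fun u hu => ?_
    rw [Finset.mem_filter] at hu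
    rw [Pool.Agent.OD.V1, if_pos ⟨u, hu.2, rfl⟩, one_mul]
  rw [h1, HahnSeries.coeff_mul]
  refine Finset.sum_congr_of_eq_on_inter ?_ ?_ (fun _ _ _ => rfl)
  · rintro ⟨i, j⟩ hx hn
    simp only [Finset.mem_antidiagonal, HahnSeries.mem_support] at hx
    exfalso
    have h2 := hx.1
    rw [Pool.Agent.OD.V1] at h2
    have h3 : ∃ u : ℕ, u.Coprime 6 ∧ i = (u : ℤ) ^ 2 := by
      by_contra h
      rw [if_neg h] at h2
      exact h2 rfl
    obtain ⟨u, hu, hi⟩ := h3
    have hj : j = l - (u : ℤ) ^ 2 := by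
      have := hx.2.2
      omega
    by_cases hUu : u < U + 1
    · apply hn
      rw [Finset.mem_image]
      exact ⟨u, Finset.mem_filter.mpr ⟨Finset.mem_range.mpr hUu, hu⟩, by rw [hi, hj]⟩
    · apply hx.2.1
      rw [hj]
      exact hU u (by omega)
  · rintro ⟨i, j⟩ hx hn
    simp only [Finset.mem_antidiagonal, HahnSeries.mem_support] at hn
    rw [Finset.mem_image] at hx
    obtain ⟨u, _, hA⟩ := hx
    simp only [Prod.mk.injEq] at hA
    by_contra h
    apply hn
    rw [mul_eq_zero, not_or] at h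
    exact ⟨h.1, h.2, by rw [← hA.1, ← hA.2]; ring⟩

/-- The coefficients of `G`. -/
theorem FCO_G (hJJ0 : JJ0_stmt) (hDRL : DRL_stmt) (NN K : Finset ℕ) (a : ℕ) (hR : Rel NN K) (N : ℤ) :
    (∑ k ∈ K, ww ^ (24 * (2 ^ a * k))).coeff N =
      if (24 * 2 ^ a : ℤ) ∣ N then ∑ n ∈ NN, JG jc n (N / (24 * 2 ^ a)) else 0 := by
  have h1 : ∀ k : ℕ, (ww ^ (24 * (2 ^ a * k))).coeff N =
      if (24 * 2 ^ a : ℤ) ∣ N then (jj ^ k).coeff (N / (24 * 2 ^ a)) else 0 := by
    intro k
    have h2 : ww ^ (24 * (2 ^ a * k)) = (ww ^ (3 * k)) ^ (2 ^ (a + 3)) := by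
      rw [← pow_mul]
      congr 1
      ring
    rw [h2, Pool.Agent.EP.FRO, hJJ0.2.2.2.2.1]
    have h3 : (24 * 2 ^ a : ℤ) = 2 ^ (a + 3) * 3 := by ring
    rw [h3]
    by_cases h : (2 ^ (a + 3) * 3 : ℤ) ∣ N
    · obtain ⟨t, ht⟩ := h
      have h4 : N = 2 ^ (a + 3) * (3 * t) := by rw [ht]; ring
      have h5 : N / 2 ^ (a + 3) = 3 * t := by
        rw [h4, Int.mul_ediv_cancel_left _ (by positivity)]
      rw [if_pos ⟨3 * t, h4⟩, h5, if_pos ⟨t, rfl⟩, if_pos ⟨t, ht⟩, Int.mul_ediv_cancel_left _ (by norm_num)]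
      rw [ht, Int.mul_ediv_cancel_left _ (by positivity)]
    · rw [if_neg h]
      split_ifs with h6 h7
      · exfalso
        apply h
        obtain ⟨s, hs⟩ := h6
        rw [hs, Int.mul_ediv_cancel_left _ (by positivity)] at h7
        obtain ⟨r, hr⟩ := h7
        exact ⟨r, by rw [hs, hr]; ring⟩
      · rfl
      · rfl
  rw [HahnSeries.coeff_sum, Finset.sum_congr rfl (fun k _ => h1 k)]
  by_cases h : (24 * 2 ^ a : ℤ) ∣ N
  · simp only [if_pos h]
    exact (hDRL NN K hR _).symm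
  · simp only [if_neg h, Finset.sum_const_zero]

/-- The `KQ` sums. -/
theorem FCO_KQ (n a P B m : ℕ) (hP : Even P) (hP0 : 0 < P) (hm : Odd m) :
    KQ (fun L => if 2 ^ a ∣ L then JG jc n ((L / 2 ^ a : ℕ) : ℤ) else 0) P B m =
      KQ (fun L => JG jc n L) (P * 2 ^ a) B m := by
  classical
  unfold KQ
  symm
  have h2 : 0 < 2 ^ a := by positivity
  apply Finset.sum_bij_ne_zero (fun x _ _ => (2 ^ a * x.1, x.2))
  · rintro ⟨x, y⟩ hx _
    simp only [Finset.mem_filter, Finset.mem_product, Finset.mem_Icc] at hx ⊢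
    refine ⟨⟨⟨Nat.mul_pos h2 hx.1.1.1, ?_⟩, hx.1.2⟩, by rw [← hx.2]; ring⟩
    have h3 : 2 ^ a * x ≤ P * 2 ^ a * x := by
      rw [mul_assoc]
      exact Nat.le_mul_of_pos_left _ hP0
    omega
  · rintro ⟨x, y⟩ _ _ ⟨x', y'⟩ _ _ h
    simp only [Prod.mk.injEq] at h ⊢
    exact ⟨Nat.eq_of_mul_eq_mul_left h2 h.1, h.2⟩
  · rintro ⟨x, y⟩ hx hne
    simp only [Finset.mem_filter, Finset.mem_product, Finset.mem_Icc] at hx hne
    have hd : 2 ^ a ∣ x * y := by
      by_contra hc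
      rw [if_neg hc] at hne
      exact hne rfl
    have hy : Odd y := by
      have h3 : Odd (B * y) := by
        have h4 : m = P * x + B * y := hx.2.symm
        rw [h4] at hm
        have h5 : Even (P * x) := hP.mul_right x
        rcases Nat.even_or_odd (B * y) with h6 | h6
        · exact absurd (h5.add h6) (Nat.not_even_iff_odd.mpr hm)
        · exact h6
      exact (Nat.odd_mul.mp h3).2
    have hd2 : 2 ^ a ∣ x := by
      have hc : Nat.Coprime (2 ^ a) y := (Nat.coprime_two_left.mpr hy).pow_left a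
      exact hc.dvd_of_dvd_mul_right hd
    obtain ⟨t, ht⟩ := hd2
    refine ⟨(t, y), ?_, ?_, ?_⟩
    · simp only [Finset.mem_filter, Finset.mem_product, Finset.mem_Icc]
      have ht0 : 0 < t := by
        rcases Nat.eq_zero_or_pos t with h0 | h0
        · rw [h0, mul_zero] at ht
          omega
        · exact h0
      have ht1 : t ≤ x := by
        rw [ht]
        exact Nat.le_mul_of_pos_left _ h2
      exact ⟨⟨⟨ht0, by omega⟩, hx.1.2⟩, by rw [← hx.2, ht]; ring⟩
    · rw [if_pos hd, ht, mul_assoc, Nat.mul_div_cancel_left _ h2] at hne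
      exact hne
    · rw [ht]
  · rintro ⟨x, y⟩ _ _
    simp only
    rw [mul_assoc, if_pos (dvd_mul_right _ _), Nat.mul_div_cancel_left _ h2]

theorem FCO_24 (m u : ℕ) (hm : m.Coprime 6) (hu : u.Coprime 6) : (24 : ℤ) ∣ (m : ℤ) ^ 2 - (u : ℤ) ^ 2 := by
  have key : ∀ v : ℕ, v.Coprime 6 → ((v : ℤ) ^ 2) % 24 = 1 := by
    intro v hv
    have h1 : v % 2 = 1 := by
      have h2 : Nat.Coprime v 2 := Nat.Coprime.coprime_dvd_right (by norm_num) hv
      exact Nat.odd_iff.mp (Nat.coprime_two_right.mp h2)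
    have h3 : v % 3 ≠ 0 := by
      have h2 : Nat.Coprime 3 v := (Nat.Coprime.coprime_dvd_right (by norm_num) hv).symm
      intro h
      exact (Nat.Prime.coprime_iff_not_dvd Nat.prime_three).mp h2 (Nat.dvd_of_mod_eq_zero h)
    have h4 : v % 24 = 1 ∨ v % 24 = 5 ∨ v % 24 = 7 ∨ v % 24 = 11 ∨ v % 24 = 13 ∨ v % 24 = 17 ∨
        v % 24 = 19 ∨ v % 24 = 23 := by omega
    have h5 : v ^ 2 % 24 = 1 := by
      rw [Nat.pow_mod]
      rcases h4 with h | h | h | h | h | h | h | h <;> rw [h]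
    exact_mod_cast h5
  have h1 := key m hm
  have h2 := key u hu
  omega

theorem FCO (hJJ0 : JJ0_stmt) (hJGN : JGN_stmt) (hDRL : DRL_stmt) (hSGA : SGA_stmt) (hSGB : SGB_stmt) : FCO_stmt := by
  classical
  intro NN K a m hR hm
  have hmo : Odd m := Nat.coprime_two_right.mp (Nat.Coprime.coprime_dvd_right (by norm_num) hm)
  have h2a : 0 < 2 ^ a := by positivity
  have h2z : (0 : ℤ) < 24 * 2 ^ a := by positivity
  have h1 : ∑ k ∈ K, ww ^ (24 * (2 ^ a * k) - 1) = vvx * ∑ k ∈ K, ww ^ (24 * (2 ^ a * k)) := by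
    rw [Finset.mul_sum]
    refine Finset.sum_congr rfl fun k hk => ?_
    have hk0 : 0 < k := (hR.2.1 k hk).pos
    obtain ⟨s, hs⟩ : ∃ s : ℕ, 24 * (2 ^ a * k) = s + 1 := by
      refine ⟨24 * (2 ^ a * k) - 1, ?_⟩
      have : 0 < 2 ^ a * k := Nat.mul_pos h2a hk0
      omega
    rw [hs, Nat.add_sub_cancel, pow_succ, mul_comm (ww ^ s) ww, ← mul_assoc, mul_comm vvx ww, FCO_wv, one_mul]
  -- vanishing far to the left
  have hNp : ∀ n ∈ NN, 0 < n := fun n hn => (hR.1 n hn).pos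
  set U : ℕ := m ^ 2 + 24 * 2 ^ a * ∑ n ∈ NN, n with hUdef
  have hUn : ∀ n ∈ NN, m ^ 2 + 24 * 2 ^ a * n ≤ U := by
    intro n hn
    rw [hUdef]
    have h3 : n ≤ ∑ n ∈ NN, n := Finset.single_le_sum (f := fun n => n) (fun _ _ => Nat.zero_le _) hn
    have h4 := Nat.mul_le_mul_left (24 * 2 ^ a) h3
    omega
  have hmU : m ≤ U := by
    have h3 : m ≤ m ^ 2 := Nat.le_self_pow (by norm_num) m
    rw [hUdef]
    omega
  rw [h1, FCO_conv _ _ U]
  swap
  · intro u hu
    rw [FCO_G hJJ0 hDRL NN K a hR]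
    split_ifs with h
    · apply Finset.sum_eq_zero
      intro n hn
      obtain ⟨t, ht⟩ := h
      have h3 := hUn n hn
      have h4 : u ≤ u ^ 2 := Nat.le_self_pow (by norm_num) u
      have h5 : ((m : ℤ) ^ 2 + 24 * 2 ^ a * n) < (u : ℤ) ^ 2 := by
        have : m ^ 2 + 24 * 2 ^ a * n < u ^ 2 := by omega
        exact_mod_cast this
      have h6 : (24 * 2 ^ a : ℤ) * (t + n) < 0 := by
        rw [mul_add, ← ht]
        linarith
      have h7 : t + n < 0 := by
        by_contra hc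
        push Not at hc
        have := mul_nonneg h2z.le hc
        omega
      rw [ht, Int.mul_ediv_cancel_left _ h2z.ne', hJGN.1 n t (hNp n hn) (by omega), if_neg (by omega)]
    · rfl
  have h3 : ∑ u ∈ (range (U + 1)).filter (fun u => u.Coprime 6),
      (∑ k ∈ K, ww ^ (24 * (2 ^ a * k))).coeff ((m : ℤ) ^ 2 - (u : ℤ) ^ 2) =
      ∑ n ∈ NN, ∑ u ∈ (range (U + 1)).filter (fun u => u.Coprime 6),
        if (24 * 2 ^ a : ℤ) ∣ (m : ℤ) ^ 2 - (u : ℤ) ^ 2 then
          JG jc n (((m : ℤ) ^ 2 - (u : ℤ) ^ 2) / (24 * 2 ^ a)) else 0 := by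
    rw [Finset.sum_comm]
    refine Finset.sum_congr rfl fun u _ => ?_
    rw [FCO_G hJJ0 hDRL NN K a hR]
    split_ifs
    · rfl
    · exact Finset.sum_const_zero.symm
  rw [h3]
  refine Finset.sum_congr rfl fun n hn => ?_
  have hn0 := hNp n hn
  set F : ℕ → ZMod 2 := fun u => if (24 * 2 ^ a : ℤ) ∣ (m : ℤ) ^ 2 - (u : ℤ) ^ 2 then
    JG jc n (((m : ℤ) ^ 2 - (u : ℤ) ^ 2) / (24 * 2 ^ a)) else 0 with hF
  -- splitting
  have hsplit : ∑ u ∈ (range (U + 1)).filter (fun u => u.Coprime 6), F u =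
      ∑ u ∈ (range m).filter (fun u => u.Coprime 6), F u + (F m +
        ∑ u ∈ (Ico (m + 1) (U + 1)).filter (fun u => u.Coprime 6), F u) := by
    rw [Finset.sum_filter, Finset.sum_filter, Finset.sum_filter]
    rw [← Finset.sum_range_add_sum_Ico _ (show m + 1 ≤ U + 1 by omega), Finset.sum_range_succ, if_pos hm]
    ring
  have hsm : ∑ u ∈ (range m).filter (fun u => u.Coprime 6), F u =
      KQ (fun L => JG jc n L) (6 * 2 ^ a) 1 m + KQ (fun L => JG jc n L) (2 * 2 ^ a) 3 m := by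
    rw [← FCO_KQ n a 6 1 m (by decide) (by norm_num) hmo, ← FCO_KQ n a 2 3 m (by decide) (by norm_num) hmo, ← hSGA _ m hm]
    refine Finset.sum_congr rfl fun u hu => ?_
    rw [Finset.mem_filter, Finset.mem_range] at hu
    obtain ⟨t, ht⟩ := FCO_24 m u hm hu.2
    have hle : u ^ 2 ≤ m ^ 2 := Nat.pow_le_pow_left hu.1.le 2
    have ht0 : 0 ≤ t := by
      have h4 : (0 : ℤ) ≤ (m : ℤ) ^ 2 - (u : ℤ) ^ 2 := by
        have : (u : ℤ) ^ 2 ≤ (m : ℤ) ^ 2 := by exact_mod_cast hle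
        omega
      omega
    obtain ⟨s, rfl⟩ := Int.eq_ofNat_of_zero_le ht0
    have hs : (m ^ 2 - u ^ 2) / 24 = s := by
      have h4 : m ^ 2 - u ^ 2 = 24 * s := by
        zify [hle]
        exact ht
      rw [h4, Nat.mul_div_cancel_left _ (by norm_num)]
    rw [hs, hF]
    simp only
    by_cases h : 2 ^ a ∣ s
    · obtain ⟨r, hr⟩ := h
      have h4 : (m : ℤ) ^ 2 - (u : ℤ) ^ 2 = 24 * 2 ^ a * (r : ℤ) := by
        rw [ht, hr]
        push_cast
        ring
      rw [if_pos ⟨(r : ℤ), h4⟩, if_pos ⟨r, hr⟩, h4, Int.mul_ediv_cancel_left _ h2z.ne', hr,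
        Nat.mul_div_cancel_left _ h2a]
    · rw [if_neg h, if_neg]
      rintro ⟨r, hr⟩
      apply h
      rw [ht] at hr
      have h5 : (s : ℤ) = 2 ^ a * r := by
        have h6 : (24 : ℤ) * s = 24 * (2 ^ a * r) := by
          rw [← mul_assoc]
          exact hr
        exact mul_left_cancel₀ (by norm_num) h6
      have h6 : ((2 ^ a : ℕ) : ℤ) ∣ (s : ℤ) := ⟨r, by push_cast; exact h5⟩
      exact_mod_cast h6
  have hmm : F m = 0 := by
    rw [hF]
    simp only [sub_self]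
    rw [if_pos (dvd_zero _), Int.zero_ediv, hJGN.1 n 0 hn0 le_rfl, if_neg (by omega)]
  have hla : ∑ u ∈ (Ico (m + 1) (U + 1)).filter (fun u => u.Coprime 6), F u =
      if ∃ u : ℕ, u.Coprime 6 ∧ u ^ 2 = m ^ 2 + 24 * (2 ^ a * n) then 1 else 0 := by
    have hval : ∀ u ∈ (Ico (m + 1) (U + 1)).filter (fun u => u.Coprime 6),
        F u = if u ^ 2 = m ^ 2 + 24 * (2 ^ a * n) then 1 else 0 := by
      intro u hu
      rw [Finset.mem_filter, Finset.mem_Ico] at hu
      have hlt : m ^ 2 < u ^ 2 := Nat.pow_lt_pow_left (by omega) (by norm_num)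
      have hlt' : (m : ℤ) ^ 2 < (u : ℤ) ^ 2 := by exact_mod_cast hlt
      rw [hF]
      simp only
      by_cases h : (24 * 2 ^ a : ℤ) ∣ (m : ℤ) ^ 2 - (u : ℤ) ^ 2
      · obtain ⟨t, ht⟩ := h
        have ht0 : t < 0 := by
          by_contra hc
          push Not at hc
          have := mul_nonneg h2z.le hc
          omega
        rw [if_pos ⟨t, ht⟩, ht, Int.mul_ediv_cancel_left _ h2z.ne', hJGN.1 n t hn0 ht0.le]
        refine if_congr ?_ rfl rfl
        constructor
        · intro h5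
          rw [h5] at ht
          have h6 : (u : ℤ) ^ 2 = (m : ℤ) ^ 2 + 24 * (2 ^ a * n) := by linarith
          exact_mod_cast h6
        · intro h5
          have h6 : (u : ℤ) ^ 2 = (m : ℤ) ^ 2 + 24 * (2 ^ a * n) := by exact_mod_cast h5
          have h7 : (24 * 2 ^ a : ℤ) * t = 24 * 2 ^ a * (-(n : ℤ)) := by
            rw [← ht, h6]
            ring
          exact mul_left_cancel₀ h2z.ne' h7
      · rw [if_neg h, if_neg]
        intro h5
        apply h
        have h6 : (u : ℤ) ^ 2 = (m : ℤ) ^ 2 + 24 * (2 ^ a * n) := by exact_mod_cast h5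
        exact ⟨-(n : ℤ), by rw [h6]; ring⟩
    rw [Finset.sum_congr rfl hval]
    by_cases h : ∃ u : ℕ, u.Coprime 6 ∧ u ^ 2 = m ^ 2 + 24 * (2 ^ a * n)
    · rw [if_pos h]
      obtain ⟨u, hu, hu2⟩ := h
      have hmu : m < u := by
        by_contra hc
        push Not at hc
        have h4 := Nat.pow_le_pow_left hc 2
        have h5 : 0 < 2 ^ a * n := Nat.mul_pos h2a hn0
        omega
      have huU : u ≤ U := by
        have h4 := hUn n hn
        have h5 : u ≤ u ^ 2 := Nat.le_self_pow (by norm_num) u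
        have h6 : 24 * 2 ^ a * n = 24 * (2 ^ a * n) := by ring
        omega
      rw [Finset.sum_eq_single u]
      · rw [if_pos hu2]
      · intro v hv hvu
        rw [if_neg]
        intro hv2
        apply hvu
        exact Nat.pow_left_injective (n := 2) (by norm_num) (by simp only; rw [hv2, hu2])
      · intro hnu
        exfalso
        apply hnu
        rw [Finset.mem_filter, Finset.mem_Ico]
        exact ⟨⟨by omega, by omega⟩, hu⟩
    · rw [if_neg h]
      apply Finset.sum_eq_zero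
      intro u hu
      rw [Finset.mem_filter] at hu
      rw [if_neg]
      intro h5
      exact h ⟨u, hu.2, h5⟩
  rw [hsplit, hsm, hmm, hla]
  have hB := hSGB a n m (hR.1 n hn) hm
  have hB' : (if ∃ u : ℕ, u.Coprime 6 ∧ u ^ 2 = m ^ 2 + 24 * (2 ^ a * n) then (1 : ZMod 2) else 0) =
      PQ n (6 * 2 ^ a) 1 m + PQ n (2 * 2 ^ a) 3 m := by
    rw [← hB]
  rw [hB']
  ring

end Pool.Agent.QP
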